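import Pool.Agent.U695.XQ.Loc

/-!
# XQ: the rank of `y² = x³ + A x` over `ℚ(i)`, `A = ± D t²`, and the kernel of the Laplacian of `D`
-/

set_option autoImplicit false
set_option linter.all false

open NumberField

namespace Pool.Agent.U695.XQ

open Pool.Agent.Y699
open H385 (ZI RQ im1 nrm)
open Pool.Agent.W164.RC (two2 prim_iff_dvd unit_norm unit_cases)
open Pool.Agent.U695.XG (cs)
open Pool.Agent.U695.XH (nS)
open Pool.Agent.U695.XR

section cls

variable {F : Type} [Field F] [Algebra ZI F] [IsFractionRing ZI F]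

variable {ι : Type} [DecidableEq ι] [Fintype ι] {pr : ι → ZI}

/-- the class of the abscissa of a point -/
theorem sq_classA (hp : PF pr) {V : Finset ι} {A : ZI} (hA : OT pr V A) {x y : F} (hy : y ≠ 0)
    (hxy : y ^ 2 = x ^ 3 + algebraMap ZI F A * x) :
    ∃ (S : Finset ι) (c : Bool) (w : F), S ⊆ V ∧ (∀ v ∈ V, ∑ i ∈ V, em pr i v *
      ((if i ∈ S then (1 : ZMod 2) else 0) + (if v ∈ S then 1 else 0)) =
        (if c then 1 else 0) * wt pr v) ∧
      x = algebraMap ZI F ((if c then im1 else 1) * DD pr S) * w ^ 2 := by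
  obtain ⟨u, S, f, b, Y, hu, hSV, hcop, hf0, hb0, hx, hE⟩ := decompA hp V hA hy hxy
  set z : ι → ZMod 2 := fun i => if i ∈ S then 1 else 0 with hz
  have hloc : ∀ v ∈ V, ∑ i ∈ V, em pr i v * (z i + z v) = ue u * wt pr v := by
    intro v hv
    obtain ⟨h1, h2⟩ := local_condA hp V hA hu hSV hcop hf0 hb0 hE hv
    have hsum : ∀ a b : ZMod 2, a + b = 0 → b = a := by decide
    by_cases hvS : v ∈ S
    · have h3 := h2 hvS
      rw [qr_unit_sg hp v hu, qr_DD_sg hp (V \ S) (fun h => (Finset.mem_sdiff.1 h).2 hvS), ← sg_add] at h3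
      have h4 := hsum _ _ (sg_eq_one h3)
      rw [← h4, ← Finset.sum_sdiff hSV]
      have h5 : ∑ i ∈ S, em pr i v * (z i + z v) = 0 := by
        refine Finset.sum_eq_zero fun i hi => ?_
        rw [hz]
        simp only [if_pos hi, if_pos hvS]
        have : (1 : ZMod 2) + 1 = 0 := by decide
        rw [this, mul_zero]
      rw [h5, add_zero]
      refine Finset.sum_congr rfl fun i hi => ?_
      rw [hz]
      simp only [if_neg (Finset.mem_sdiff.1 hi).2, if_pos hvS, zero_add, mul_one]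
    · have h3 := h1 hvS
      rw [qr_unit_sg hp v hu, qr_DD_sg hp S hvS, ← sg_add] at h3
      have h4 := hsum _ _ (sg_eq_one h3)
      rw [← h4, ← Finset.sum_sdiff hSV]
      have h5 : ∑ i ∈ V \ S, em pr i v * (z i + z v) = 0 := by
        refine Finset.sum_eq_zero fun i hi => ?_
        rw [hz]
        simp only [if_neg (Finset.mem_sdiff.1 hi).2, if_neg hvS, zero_add, mul_zero]
      rw [h5, zero_add]
      refine Finset.sum_congr rfl fun i hi => ?_
      rw [hz]
      simp only [if_pos hi, if_neg hvS, add_zero, mul_one]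
  have hsq : ∀ (c : Bool) (u0 : ZI), u = (if c then im1 else 1) * u0 ^ 2 →
      ue u = (if c then 1 else 0) → ∃ (S : Finset ι) (c : Bool) (w : F), S ⊆ V ∧
      (∀ v ∈ V, ∑ i ∈ V, em pr i v *
      ((if i ∈ S then (1 : ZMod 2) else 0) + (if v ∈ S then 1 else 0)) =
        (if c then 1 else 0) * wt pr v) ∧
      x = algebraMap ZI F ((if c then im1 else 1) * DD pr S) * w ^ 2 := by
    intro c u0 h1 h2
    refine ⟨S, c, algebraMap ZI F u0 * (algebraMap ZI F f / algebraMap ZI F b), hSV, ?_, ?_⟩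
    · intro v hv
      rw [hloc v hv, h2]
    · rw [hx, h1]
      simp only [map_mul, map_pow]
      ring
  rcases unit_cases hu with h | h | h | h
  · refine hsq false 1 (by rw [h]; decide) ?_
    rw [h]
    decide
  · refine hsq true 1 (by rw [h]; decide) ?_
    rw [h]
    unfold ue
    rw [if_neg (by decide)]
    rfl
  · refine hsq false im1 (by rw [h]; decide) ?_
    rw [h]
    unfold ue
    rw [if_pos (by decide)]
    rfl
  · refine hsq true im1 (by rw [h]; decide) ?_
    rw [h]
    unfold ue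
    rw [if_neg (by decide)]
    rfl

/-- `- A` is not a square -/
theorem not_sq (hp : PF pr) {V : Finset ι} {A : ZI} (hA : OT pr V A) (hV : V.Nonempty) (x : F) :
    x ^ 2 ≠ -algebraMap ZI F A := by
  intro h
  rw [← map_neg] at h
  obtain ⟨X, rfl⟩ := sq_int h
  have h1 : X ^ 2 = -A := by
    apply A_inj (F := F)
    rw [map_pow, h]
  obtain ⟨j, hj⟩ := hV
  obtain ⟨b, A', hA1, hA2, -⟩ := hA.val j hj
  refine odd_val (p := pr j) (c := -A') (hp.pp j).pr (fun h => hA2 ((dvd_neg).1 h)) b (Y := X) ?_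
  rw [h1, hA1]
  ring

end cls

/-- `A = ± D t²`, where all prime factors of `t` divide `D` -/
def Tw (D A : ZI) : Prop := ∃ (t : ZI) (n : ℕ), t ∣ D ^ n ∧ (A = D * t ^ 2 ∨ A = -(D * t ^ 2))

theorem ot_of {D A : ZI} (hD : PS D) (h : Tw D A) : OT (fam D) Finset.univ A := by
  classical
  obtain ⟨t, n, htn, hA⟩ := h
  have hp := fam_PF hD.ne
  have ht0 : t ≠ 0 := by
    rintro rfl
    exact pow_ne_zero n hD.ne (zero_dvd_iff.1 htn)
  have hDD := hD.DD
  have hA0 : D * t ^ 2 ≠ 0 := mul_ne_zero hD.ne (pow_ne_zero 2 ht0)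
  refine ⟨?_, ?_, ?_⟩
  · rcases hA with rfl | rfl
    · exact hA0
    · exact neg_ne_zero.2 hA0
  · intro ρ hρ hρA
    rw [hDD]
    have h1 : ρ ∣ D * t ^ 2 := by
      rcases hA with rfl | rfl
      · exact hρA
      · exact (dvd_neg).1 hρA
    rcases hρ.dvd_or_dvd h1 with h2 | h2
    · exact h2
    · exact hρ.dvd_of_dvd_pow ((hρ.dvd_of_dvd_pow h2).trans htn)
  · intro j hj
    have hπ := hp.pp j
    obtain ⟨b, t', htt, hnt⟩ := split_pow hπ.pr ht0
    have hDe : D = fam D j * DD (fam D) (Finset.univ.erase j) := by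
      conv_lhs => rw [← hDD]
      unfold DD
      exact (Finset.mul_prod_erase _ (fam D) hj).symm
    have hnD : ¬ fam D j ∣ DD (fam D) (Finset.univ.erase j) := by
      intro h
      unfold DD at h
      obtain ⟨i, hi, hji⟩ := (hπ.pr.dvd_finsetProd_iff _).1 h
      exact not_dvd_of_ne hp (fun h' => (Finset.ne_of_mem_erase hi) h'.symm) hji
    set E := DD (fam D) (Finset.univ.erase j) with hE
    have hnE : ¬ fam D j ∣ E * t' ^ 2 := by
      intro h
      rcases hπ.pr.dvd_or_dvd h with h1 | h1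
      · exact hnD h1
      · exact hnt (hπ.pr.dvd_of_dvd_pow h1)
    have hq : qr (fam D j) (E * t' ^ 2) = qr (fam D j) E := by
      rw [qr_mul hπ, qr_sq' hπ hnt, mul_one]
    have hDt : D * t ^ 2 = fam D j ^ (2 * b + 1) * (E * t' ^ 2) := by
      have h1 : fam D j ^ (2 * b + 1) = fam D j * (fam D j ^ b) ^ 2 := by
        rw [← pow_mul, pow_succ, mul_comm, mul_comm 2 b]
      calc D * t ^ 2 = (fam D j * E) * (fam D j ^ b * t') ^ 2 := by rw [← hDe, ← htt]
        _ = fam D j ^ (2 * b + 1) * (E * t' ^ 2) := by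
          rw [h1]
          ring
    rcases hA with rfl | rfl
    · exact ⟨b, E * t' ^ 2, hDt, hnE, hq⟩
    · refine ⟨b, -(E * t' ^ 2), by rw [hDt]; ring, fun h => hnE ((dvd_neg).1 h), ?_⟩
      rw [qr_neg hπ, hq]

section rank

variable {K : Type} [Field K] [NumberField K]

/-- every point has a class given by an element of the extended kernel -/
theorem exists_classA [DecidableEq K] (e : ZI ≃+* 𝓞 K) {D A : ZI} (hD : PS D) (hne : (PD D).Nonempty)
    (hA : Tw D A) {α : K} (hα : α = algebraMap (𝓞 K) K (e A)) (P : (Wa α).toAffine.Point) :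
    ∃ p : KerX D, Cl α (algebraMap (𝓞 K) K (e (elX D p.1))) P := by
  letI : Algebra ZI K := ((algebraMap (𝓞 K) K).comp (e : ZI →+* 𝓞 K)).toAlgebra
  haveI : IsFractionRing ZI K := IsFractionRing.of_ringEquiv_left e (fun _ => rfl)
  have hp := fam_PF hD.ne
  have hal : ∀ z : ZI, algebraMap (𝓞 K) K (e z) = algebraMap ZI K z := fun z => rfl
  have hO := ot_of hD hA
  have hα' : α = algebraMap ZI K A := hα
  have hα0 : α ≠ 0 := by
    rw [hα']
    exact A_ne hO.ne
  set j : K := algebraMap ZI K im1 with hj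
  have hjj : j ^ 2 = -1 := by
    rw [hj, ← map_pow]
    have e1 : im1 ^ 2 = (-1 : ZI) := by decide
    rw [e1, map_neg, map_one]
  have hsqD : IsSquare (algebraMap ZI K D * α) := by
    obtain ⟨t, n, -, h | h⟩ := hA
    · refine ⟨algebraMap ZI K D * algebraMap ZI K t, ?_⟩
      rw [hα', h, map_mul, map_pow]
      ring
    · refine ⟨j * algebraMap ZI K D * algebraMap ZI K t, ?_⟩
      rw [hα', h, map_neg, map_mul, map_pow]
      linear_combination -(algebraMap ZI K D ^ 2 * algebraMap ZI K t ^ 2) * hjj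
  -- the trivial class
  obtain ⟨v0, hv0⟩ := kerX_of (D := D) (S := ∅) (c := false) (by
    intro v _
    simp)
  have e0 : algebraMap (𝓞 K) K (e (elX D v0.1)) = 1 := by
    rw [hv0]
    unfold DD
    rw [Finset.prod_empty]
    simp
  obtain ⟨v1, hv1⟩ := kerX_of (D := D) (S := Finset.univ) (c := false) (by
    intro v _
    have hz : (if false = true then (1 : ZMod 2) else 0) * wt (fam D) v = 0 := by simp
    rw [hz]
    refine Finset.sum_eq_zero fun i _ => ?_
    rw [if_pos (Finset.mem_univ _), if_pos (Finset.mem_univ _)]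
    have : (1 : ZMod 2) + 1 = 0 := by decide
    rw [this, mul_zero])
  have e1 : algebraMap (𝓞 K) K (e (elX D v1.1)) = algebraMap ZI K D := by
    rw [hv1, hD.DD, hal]
    simp
  rcases P with _ | ⟨x, y, h⟩
  · refine ⟨v0, ?_⟩
    rw [e0]
    exact IsSquare.one
  · have hxy := eqn.1 h.1
    by_cases hy : y = 0
    · have h0 : x * (x ^ 2 + α) = 0 := by
        rw [hy] at hxy
        linear_combination -hxy
      rcases mul_eq_zero.1 h0 with h1 | h1
      · refine ⟨v1, ?_⟩
        rw [e1]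
        refine Cl_some.2 ?_
        right
        exact ⟨h1, hsqD⟩
      · exfalso
        refine not_sq (F := K) hp hO ?_ x ?_
        · obtain ⟨π, hπ⟩ := hne
          exact ⟨⟨π, hπ⟩, Finset.mem_univ _⟩
        · rw [← hα']
          linear_combination h1
    · have hxy' : y ^ 2 = x ^ 3 + algebraMap ZI K A * x := by
        rw [← hα', hxy]
      obtain ⟨S, c, w, -, hS, hx⟩ := sq_classA (F := K) hp hO hy hxy'
      obtain ⟨v, hv⟩ := kerX_of hS
      refine ⟨v, ?_⟩
      rw [hv]
      refine Cl_some.2 ?_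
      left
      have hx0 : x ≠ 0 := by
        rintro rfl
        apply hy
        have : y ^ 2 = 0 := by rw [hxy]; ring
        exact pow_eq_zero_iff (two_ne_zero) |>.1 this
      refine ⟨hx0, ?_⟩
      rw [hal]
      refine ⟨algebraMap ZI K ((if c then im1 else 1) * DD (fam D) S) * w, ?_⟩
      rw [hx]
      ring

/-- for norms `5` modulo `8` there is nothing new in the extended kernel -/
theorem card_KerX5 {D : ZI} (hD : PS D) (h5 : D.norm % 8 = 5) : Nat.card (KerX D) ≤ nS (PD D) := by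
  have hp := fam_PF hD.ne
  have hw := wt_sum hD h5
  have hfin : Finite (Ker D) := Subtype.finite
  rw [← card_Ker D]
  have hb : ∀ p : KerX D, p.1.2 = false := by
    intro p
    by_contra hb
    rw [Bool.not_eq_false] at hb
    have h3 := p.2
    rw [if_pos hb] at h3
    have h4 : ∑ π : {π : ZI // π ∈ PD D}, ∑ ρ : {π : ZI // π ∈ PD D}, cs π ρ * (p.1.1 ρ - p.1.1 π) = 1 := by
      exact (Finset.sum_congr rfl fun π _ => (h3 π).trans (one_mul _)).trans hw
    have h5' : ∑ π : {π : ZI // π ∈ PD D}, ∑ ρ : {π : ZI // π ∈ PD D}, cs π ρ * (p.1.1 ρ - p.1.1 π) =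
        ∑ π : {π : ZI // π ∈ PD D}, ∑ ρ : {π : ZI // π ∈ PD D}, cs π ρ * p.1.1 ρ -
          ∑ π : {π : ZI // π ∈ PD D}, ∑ ρ : {π : ZI // π ∈ PD D}, cs π ρ * p.1.1 π := by
      rw [← Finset.sum_sub_distrib]
      refine Finset.sum_congr rfl fun π _ => ?_
      rw [← Finset.sum_sub_distrib]
      refine Finset.sum_congr rfl fun ρ _ => by ring
    have h6 : ∑ π : {π : ZI // π ∈ PD D}, ∑ ρ : {π : ZI // π ∈ PD D}, cs π ρ * p.1.1 π =
        ∑ π : {π : ZI // π ∈ PD D}, ∑ ρ : {π : ZI // π ∈ PD D}, cs π ρ * p.1.1 ρ := by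
      rw [Finset.sum_comm]
      refine Finset.sum_congr rfl fun π _ => Finset.sum_congr rfl fun ρ _ => ?_
      have e : cs (ρ : ZI) (π : ZI) = cs (π : ZI) (ρ : ZI) := em_symm hp π ρ
      rw [e]
    rw [h5', h6, sub_self] at h4
    exact absurd h4 (by decide)
  refine Nat.card_le_card_of_injective (fun p : KerX D => (⟨p.1.1, ?_⟩ : Ker D)) ?_
  · have h3 := p.2
    rw [hb p] at h3
    intro π
    have h4 := h3 π
    simp only [Bool.false_eq_true, if_false, zero_mul] at h4
    exact h4
  · intro p q hpq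
    have h4 : p.1.1 = q.1.1 := congrArg Subtype.val hpq
    exact Subtype.ext (Prod.ext h4 ((hb p).trans (hb q).symm))

theorem rank_le_two' {A : Type} [AddCommGroup A] [Module.Finite ℤ A] (φ J : A →+ A)
    (h : ∀ P, φ (φ P) = J P + J P) (hJ : Function.Surjective J) {T : Type} [Finite T] (f : A → T)
    (hf : ∀ P Q, f P = f Q → P - Q ∈ φ.range) (P₀ : A) (h0 : P₀ ∈ φ.ker) (h0' : P₀ ∉ φ.range)
    (h02 : P₀ + P₀ = 0) {k : ℕ} (hT : Nat.card T ≤ 2 ^ (k + 1)) : Module.finrank ℤ A ≤ 2 * k := by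
  classical
  have hg : ∃ g : T → Fin (2 ^ (k + 1)), Function.Injective g := by
    have h1 : Nat.card T ≤ Nat.card (Fin (2 ^ (k + 1))) := by rw [Nat.card_fin]; exact hT
    exact ⟨fun t => ⟨(Finite.equivFin T t).1, lt_of_lt_of_le (Finite.equivFin T t).2 hT⟩, fun a b hab =>
      (Finite.equivFin T).injective (Fin.ext (Fin.mk.inj_iff.1 hab))⟩
  obtain ⟨g, hg⟩ := hg
  exact rank_le_two φ J h hJ (T := Fin (2 ^ (k + 1))) (fun P => g (f P))
    (fun P Q hPQ => hf P Q (hg hPQ)) P₀ h0 h0' h02 (Nat.card_fin _)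

/-- **the rank** -/
theorem rank_gen [DecidableEq K] (e : ZI ≃+* 𝓞 K) {D A : ZI} (hD : PS D) (hne : (PD D).Nonempty)
    (hA : Tw D A) {k : ℕ} (hk : Nat.card (KerX D) ≤ 2 ^ (k + 1)) {α : K}
    (hα : α = algebraMap (𝓞 K) K (e A)) : Module.finrank ℤ (Wa α).toAffine.Point ≤ 2 * k := by
  have hO := ot_of hD hA
  have hα0 : α ≠ 0 := by
    rw [hα, Ne, map_eq_zero_iff _ (IsFractionRing.injective (𝓞 K) K), map_eq_zero_iff _ e.injective]
    exact hO.ne
  have h2 : (2 : K) ≠ 0 := two_ne_zero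
  have hDis : (Wa α).Δ ≠ 0 := Wa_disc_ne h2 hα0
  obtain ⟨i, hi⟩ : ∃ i : K, i ^ 2 = -1 := by
    refine ⟨algebraMap (𝓞 K) K (e im1), ?_⟩
    rw [← map_pow, ← map_pow]
    have e1 : im1 ^ 2 = (-1 : ZI) := by decide
    rw [e1, map_neg, map_neg, map_one, map_one]
  have hi0 : i ≠ 0 := by
    rintro rfl
    have : (0 : K) ^ 2 = 0 := by ring
    rw [this] at hi
    have h1 : (1 : K) = 0 := by linear_combination hi
    exact one_ne_zero h1
  have h1i : 1 + i ≠ 0 := by
    intro h
    have h3 : (2 : K) = 0 := by linear_combination (1 - i) * h + hi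
    exact h2 h3
  have hfg : AddGroup.FG (Wa α).toAffine.Point :=
    Pool.Agent.Q286.EQ.mordell_weil K (Wa α) hDis
  have : Module.Finite ℤ (Wa α).toAffine.Point := Module.Finite.iff_addGroup_fg.2 hfg
  choose f hf using exists_classA e hD hne hA hα
  have hfin : Finite (KerX D) := Subtype.finite
  have n0 : (Wa α).toAffine.Nonsingular 0 0 := Pool.Agent.Y700.nonsing hDis (eqn.2 (by ring))
  have hJ0 : J hi hDis (.some 0 0 n0) = .some 0 0 n0 := by
    obtain ⟨h', e1⟩ := J_some hi hDis n0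
    rw [e1, WeierstrassCurve.Affine.Point.some.injEq]
    exact ⟨by ring, by ring⟩
  have h00 : (WeierstrassCurve.Affine.Point.some 0 0 n0 : (Wa α).toAffine.Point) + .some 0 0 n0 = 0 :=
    WeierstrassCurve.Affine.Point.add_of_Y_eq rfl (by rw [negY_eq, neg_zero])
  have hφ0 : phi hi hDis (.some 0 0 n0) = 0 := by
    rw [phi_apply, hJ0, h00]
  have hnz : (0 : (Wa α).toAffine.Point) ≠ .some 0 0 n0 := fun h =>
    WeierstrassCurve.Affine.Point.some_ne_zero _ h.symm
  refine rank_le_two' (phi hi hDis) (J hi hDis) (phi_phi hi hDis) (J_surj hi hDis)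
    (T := KerX D) f (fun P Q h => ?_) (.some 0 0 n0) (AddMonoidHom.mem_ker.2 hφ0) ?_ h00 hk
  · have h3 := hf P
    have h4 := hf Q
    rw [h] at h3
    exact sub_mem h2 hα0 hi hDis (elX_ne e hD _) h3 h4
  · rintro ⟨P, hP⟩
    rcases P with _ | ⟨x, y, h⟩
    · apply hnz
      rw [← hP]
      exact (map_zero (phi hi hDis)).symm
    · by_cases hx : x = 0
      · have hxy := eqn.1 h.1
        have hy : y = 0 := by
          rw [hx] at hxy
          have h3 : y ^ 2 = 0 := by rw [hxy]; ring
          exact pow_eq_zero_iff (two_ne_zero) |>.1 h3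
        subst hx hy
        apply hnz
        rw [← hP]
        exact hφ0.symm
      · obtain ⟨h', e1⟩ := J_some hi hDis h
        rw [phi_apply, e1] at hP
        have hne' : x ≠ -x := by
          intro h3
          apply hx
          have h4 : 2 * x = 0 := by linear_combination h3
          exact (mul_eq_zero.1 h4).resolve_left h2
        rw [WeierstrassCurve.Affine.Point.add_of_X_ne hne',
          WeierstrassCurve.Affine.Point.some.injEq] at hP
        have hsl : (Wa α).toAffine.slope x (-x) y (-(i * y)) * (2 * x) = (1 + i) * y := by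
          rw [WeierstrassCurve.Affine.slope_of_X_ne hne']
          have h5 : x - -x = 2 * x := by ring
          rw [h5, div_mul_cancel₀ _ (mul_ne_zero h2 hx)]
          ring
        have h5 : (Wa α).toAffine.slope x (-x) y (-(i * y)) ^ 2 = 0 := by
          have key : ∀ s : K, (Wa α).toAffine.addX x (-x) s = s ^ 2 := by
            intro s
            simp only [WeierstrassCurve.Affine.addX, Wa]
            ring
          rw [← key]
          exact hP.1
        have h6 := pow_eq_zero_iff (two_ne_zero) |>.1 h5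
        rw [h6, zero_mul] at hsl
        have hy : y = 0 := (mul_eq_zero.1 hsl.symm).resolve_left h1i
        have hxy := eqn.1 h.1
        rw [hy] at hxy
        have h7 : x ^ 2 = -α := by
          have h8 : x * (x ^ 2 + α) = 0 := by linear_combination -hxy
          have h9 := (mul_eq_zero.1 h8).resolve_left hx
          linear_combination h9
        letI : Algebra ZI K := ((algebraMap (𝓞 K) K).comp (e : ZI →+* 𝓞 K)).toAlgebra
        haveI : IsFractionRing ZI K := IsFractionRing.of_ringEquiv_left e (fun _ => rfl)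
        refine not_sq (F := K) (fam_PF hD.ne) hO ?_ x ?_
        · obtain ⟨π, hπ⟩ := hne
          exact ⟨⟨π, hπ⟩, Finset.mem_univ _⟩
        · rw [h7, hα]
          rfl

/-- the rank in terms of the kernel of the Laplacian -/
theorem rank_five [DecidableEq K] (e : ZI ≃+* 𝓞 K) {D A : ZI} (hD : PS D) (h5 : D.norm % 8 = 5)
    (hne : (PD D).Nonempty) (hA : Tw D A) {k : ℕ} (hk : nS (PD D) = 2 ^ (k + 1)) {α : K}
    (hα : α = algebraMap (𝓞 K) K (e A)) : Module.finrank ℤ (Wa α).toAffine.Point ≤ 2 * k :=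
  rank_gen e hD hne hA ((card_KerX5 hD h5).trans hk.le) hα

theorem rank_all [DecidableEq K] (e : ZI ≃+* 𝓞 K) {D A : ZI} (hD : PS D)
    (hne : (PD D).Nonempty) (hA : Tw D A) {k : ℕ} (hk : nS (PD D) = 2 ^ (k + 1)) {α : K}
    (hα : α = algebraMap (𝓞 K) K (e A)) : Module.finrank ℤ (Wa α).toAffine.Point ≤ 2 * (k + 1) := by
  refine rank_gen e hD hne hA ((card_KerX D).trans ?_) hα
  rw [hk]
  exact le_of_eq (by ring)

end rank

end Pool.Agent.U695.XQ
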