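import Pool.Agent.Results.MP_7cad78_nt.GaussianTwistRanks
import Pool.Agent.U695.XQ.Des

/-!
# XQ: proportions of the family for properties which follow from the number of the decompositions
-/

set_option autoImplicit false
set_option linter.all false

open scoped Classical

namespace Pool.Agent.U695.XQ.Gen

open Filter NumberField
open Pool.Agent.Results.MP_7cad78_nt.GaussianTwistRanks
open Pool.Agent.U695.XG Pool.Agent.U695.XH
open Pool.Agent.Y699 (PS PD SB)
open H385 (nrm)

/-- the numbers `law 0 + ⋯ + law (m - 1)` -/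
noncomputable def sm (m : ℕ) : ℝ := ∑ s ∈ Finset.range m, law s

theorem sm_tendsto : Tendsto sm atTop (nhds 1) :=
  (Pool.Agent.U695.XH.SUMf.t_sum : HasSum law 1).tendsto_sum_nat

theorem law_vals : 0.4194 < law 0 ∧ law 1 = law 0 ∧ law 2 = law 0 / 3 ∧ law 3 = law 0 / 21 := by
  have hc : c = c2 := rfl
  have hb := t_C2.2
  have hc1 : 0.4194 < c := hc ▸ hb.2.2.1
  have e0 : law 0 = c := by
    unfold law
    rw [Finset.prod_range_zero, div_one]
  have e1 : law 1 = c := by
    unfold law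
    rw [Finset.prod_range_succ, Finset.prod_range_zero]
    norm_num
  have e2 : law 2 = c / 3 := by
    unfold law
    rw [Finset.prod_range_succ, Finset.prod_range_succ, Finset.prod_range_zero]
    norm_num
  have e3 : law 3 = c / 21 := by
    unfold law
    rw [Finset.prod_range_succ, Finset.prod_range_succ, Finset.prod_range_succ,
      Finset.prod_range_zero]
    norm_num
  exact ⟨by rw [e0]; exact hc1, by rw [e1, e0], by rw [e2, e0], by rw [e3, e0]⟩

theorem sm_vals : sm 0 = 0 ∧ 0.4194 < sm 1 ∧ 0.8388 < sm 2 ∧ 0.9786 < sm 3 ∧ 0.9985 < sm 4 := by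
  obtain ⟨h0, h1, h2, h3⟩ := law_vals
  unfold sm
  simp only [Finset.sum_range_succ, Finset.sum_range_zero, zero_add, h1, h2, h3]
  norm_num at h0 ⊢
  refine ⟨by linarith, by linarith, by linarith, by linarith⟩

/-- the lower bound for the family -/
theorem t_gen {r : ℕ} {T : GaussianInt → Prop}
    (h5 : ∀ s < r + 1, ∀ D ∈ {D | D ∈ Family ∧ D.norm % 8 = 5}, Decomposes s D → T D)
    (h1 : ∀ s < r, ∀ D ∈ {D | D ∈ Family ∧ D.norm % 8 = 1}, Decomposes s D → T D)
    {ε : ℝ} (hε : 0 < ε) : ∀ᶠ X : ℕ in atTop,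
    (sm (r + 1) + sm r) / 2 - ε ≤ proportion Family T X := by
  have k1 := ((t_sums el_five NSf.low5 (r + 1)).mul half_five).add
    ((t_sums el_one low_one r).mul half_one)
  have e : (∑ s ∈ Finset.range (r + 1), law s) * (1 / 2) + (∑ s ∈ Finset.range r, law s) * (1 / 2) =
      (sm (r + 1) + sm r) / 2 := by unfold sm; ring
  rw [e] at k1
  obtain ⟨c5, X5, hc5, hlow5⟩ := NSf.low5
  obtain ⟨c1, X1, hc1, hlow1⟩ := low_one
  filter_upwards [k1.eventually (lt_mem_nhds (show (sm (r + 1) + sm r) / 2 - ε < (sm (r + 1) +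
    sm r) / 2 by linarith)), eventually_ge_atTop X5, eventually_ge_atTop X1,
    eventually_ge_atTop 1] with X hX hX5 hX1 hX2
  refine hX.le.trans ?_
  have hX0 : (0 : ℝ) < X := by exact_mod_cast hX2
  have hp5 : (0 : ℝ) < (count {D | D ∈ Family ∧ D.norm % 8 = 5} X : ℝ) := by
    rw [cnt el_five]
    exact lt_of_lt_of_le (by positivity) (hlow5 X hX5)
  have hp1 : (0 : ℝ) < (count {D | D ∈ Family ∧ D.norm % 8 = 1} X : ℝ) := by
    rw [cnt el_one]
    exact lt_of_lt_of_le (by positivity) (hlow1 X hX1)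
  rw [div_mul_div_cancel₀ hp5.ne', div_mul_div_cancel₀ hp1.ne', ← add_div]
  unfold proportion
  refine div_le_div_of_nonneg_right ?_ (Nat.cast_nonneg _)
  have g5 := count_ge (S := {D | D ∈ Family ∧ D.norm % 8 = 5}) (T := T) (m := r + 1) h5 X
  have g6 := count_ge (S := {D | D ∈ Family ∧ D.norm % 8 = 1}) (T := T) (m := r) h1 X
  have g7 := (Nat.add_le_add g5 g6).trans (count_add _ X)
  exact_mod_cast g7

/-- the lower bound for the norms `5` modulo `8` -/
theorem t_gen5 {r : ℕ} {T : GaussianInt → Prop}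
    (h5 : ∀ s < r + 1, ∀ D ∈ {D | D ∈ Family ∧ D.norm % 8 = 5}, Decomposes s D → T D)
    {ε : ℝ} (hε : 0 < ε) : ∀ᶠ X : ℕ in atTop,
    sm (r + 1) - ε ≤ proportion {D | D ∈ Family ∧ D.norm % 8 = 5} T X := by
  have h1 := t_sums el_five NSf.low5 (r + 1)
  filter_upwards [h1.eventually (lt_mem_nhds
    (show ∑ s ∈ Finset.range (r + 1), law s - ε < ∑ s ∈ Finset.range (r + 1), law s by linarith))]
    with X hX
  refine hX.le.trans ?_
  unfold proportion
  refine div_le_div_of_nonneg_right ?_ (Nat.cast_nonneg _)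
  exact_mod_cast count_ge (S := {D | D ∈ Family ∧ D.norm % 8 = 5}) (T := T)
    (m := r + 1) h5 X

/-- one bound for almost all members -/
theorem t_genR {T : ℕ → GaussianInt → Prop}
    (h5 : ∀ r, ∀ s < r + 1, ∀ D ∈ {D | D ∈ Family ∧ D.norm % 8 = 5}, Decomposes s D → T r D)
    (h1 : ∀ r, ∀ s < r, ∀ D ∈ {D | D ∈ Family ∧ D.norm % 8 = 1}, Decomposes s D → T r D)
    {ε : ℝ} (hε : 0 < ε) : ∃ r : ℕ, ∀ᶠ X : ℕ in atTop, 1 - ε ≤ proportion Family (T r) X := by
  obtain ⟨r, hr⟩ := (sm_tendsto.eventually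
    (lt_mem_nhds (show (1 : ℝ) - ε / 2 < 1 by linarith))).exists_forall_of_atTop
  refine ⟨r, ?_⟩
  filter_upwards [t_gen (h5 r) (h1 r) (show 0 < ε / 2 by linarith)] with X hX
  have h3 := hr r le_rfl
  have h4 := hr (r + 1) (Nat.le_succ r)
  linarith

/-- the members which decompose are not `1` -/
theorem pd_nonempty {D : GaussianInt} (h : PS D) {r : ℕ} (hr : Decomposes r D) : (PD D).Nonempty := by
  by_contra h3
  rw [Finset.not_nonempty_iff_eq_empty] at h3
  have h4 := (dec_iff h r).1 hr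
  unfold Gr at h4
  rw [h3] at h4
  have h5 : nS ∅ = 1 := by
    unfold nS
    rw [Nat.card_eq_one_iff_unique]
    refine ⟨⟨fun a b => ?_⟩, ⟨⟨fun π => 0, fun π => ?_⟩⟩⟩
    · apply Subtype.ext
      funext π
      exact absurd π.2 (Finset.notMem_empty _)
    · exact absurd π.2 (Finset.notMem_empty _)
  rw [h5] at h4
  have : 1 < 2 ^ (r + 1) := Nat.one_lt_two_pow (Nat.succ_ne_zero r)
  omega

end Pool.Agent.U695.XQ.Gen
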