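import Pool.Agent.U695.XR.Des2
import Pool.Agent.Y699.Qd

/-!
# XQ: two-descent on `y² = x³ + A x` over `ℚ(i)`, all valuations of `A` odd
-/

set_option autoImplicit false
set_option linter.all false

namespace Pool.Agent.U695.XQ

open Pool.Agent.Y699
open H385 (ZI RQ im1 nrm)
open Pool.Agent.W164.RC (two2 prim_iff_dvd unit_norm unit_cases)

section val

theorem odd_val {p c Y : ZI} (hp : Prime p) (hc : ¬ p ∣ c) : ∀ n : ℕ, Y ^ 2 = p ^ (2 * n + 1) * c → False := by
  intro n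
  induction n generalizing Y with
  | zero =>
    intro h
    have h1 : p ∣ Y := hp.dvd_of_dvd_pow (n := 2) (by rw [h, pow_one]; exact dvd_mul_right _ _)
    obtain ⟨Z, rfl⟩ := h1
    apply hc
    refine ⟨Z ^ 2, ?_⟩
    apply mul_left_cancel₀ hp.ne_zero
    linear_combination -h
  | succ n ih =>
    intro h
    have h1 : p ∣ Y := by
      apply hp.dvd_of_dvd_pow (n := 2)
      rw [h]
      exact (dvd_pow_self p (by omega)).mul_right _
    obtain ⟨Z, rfl⟩ := h1
    refine ih (Y := Z) ?_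
    apply mul_left_cancel₀ (pow_ne_zero 2 hp.ne_zero)
    have e : p ^ (2 * (n + 1) + 1) = p ^ 2 * p ^ (2 * n + 1) := by ring
    rw [e] at h
    linear_combination h

theorem even_val {p c : ZI} (hp : Prime p) : ∀ (n : ℕ) (Y : ZI), Y ^ 2 = p ^ (2 * n) * c →
    ∃ Z : ZI, Z ^ 2 = c := by
  intro n
  induction n with
  | zero =>
    intro Y h
    exact ⟨Y, by rw [h]; ring⟩
  | succ n ih =>
    intro Y h
    have h1 : p ∣ Y := by
      apply hp.dvd_of_dvd_pow (n := 2)
      rw [h]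
      exact (dvd_pow_self p (by omega)).mul_right _
    obtain ⟨Z, rfl⟩ := h1
    refine ih Z ?_
    apply mul_left_cancel₀ (pow_ne_zero 2 hp.ne_zero)
    have e : p ^ (2 * (n + 1)) = p ^ 2 * p ^ (2 * n) := by ring
    rw [e] at h
    linear_combination h

theorem split_pow {p f : ZI} (hp : Prime p) (hf : f ≠ 0) : ∃ (k : ℕ) (g : ZI), f = p ^ k * g ∧ ¬ p ∣ g := by
  obtain ⟨k, g, hg, h⟩ := WfDvdMonoid.max_power_factor hf hp.irreducible
  exact ⟨k, g, h, hg⟩

end val

variable {F : Type} [Field F] [Algebra ZI F] [IsFractionRing ZI F]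

variable {ι : Type} [DecidableEq ι] {pr : ι → ZI}

/-- the element `A` has the prime divisors `pr i`, `i ∈ V`, with odd multiplicities, and the square classes
of `∏ pr i` -/
structure OT (pr : ι → ZI) (V : Finset ι) (A : ZI) : Prop where
  ne : A ≠ 0
  primes : ∀ ρ : ZI, Prime ρ → ρ ∣ A → ρ ∣ DD pr V
  val : ∀ j ∈ V, ∃ (b : ℕ) (A' : ZI), A = pr j ^ (2 * b + 1) * A' ∧ ¬ pr j ∣ A' ∧
    qr (pr j) A' = qr (pr j) (DD pr (V.erase j))

theorem decompA (hp : PF pr) (V : Finset ι) {A : ZI} (hA : OT pr V A) {x y : F} (hy : y ≠ 0)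
    (hxy : y ^ 2 = x ^ 3 + algebraMap ZI F A * x) :
    ∃ (u : ZI) (S : Finset ι) (f b Y : ZI), u.norm = 1 ∧ S ⊆ V ∧ IsCoprime f b ∧ f ≠ 0 ∧ b ≠ 0 ∧
      x = algebraMap ZI F (u * DD pr S) * (algebraMap ZI F f / algebraMap ZI F b) ^ 2 ∧
      Y ^ 2 = (u * DD pr S) * ((u * DD pr S) ^ 2 * f ^ 4 + A * b ^ 4) := by
  classical
  have hx : x ≠ 0 := by
    rintro rfl
    apply hy
    have : y ^ 2 = 0 := by rw [hxy]; ring
    exact pow_eq_zero_iff (by norm_num) |>.1 this
  obtain ⟨a, m, hm, hxa⟩ := IsFractionRing.div_surjective (A := ZI) x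
  have hm0 : m ≠ 0 := nonZeroDivisors.ne_zero hm
  have ha0 : a ≠ 0 := by
    rintro rfl
    apply hx
    rw [← hxa, map_zero, zero_div]
  have hc0 : a * m ≠ 0 := mul_ne_zero ha0 hm0
  obtain ⟨d, h, hdh, hd⟩ := sqf_decomp _ (a * m) hc0 le_rfl
  have hh0 : h ≠ 0 := by
    rintro rfl
    apply hc0
    rw [hdh]; ring
  have hd0 : d ≠ 0 := hd.ne_zero
  obtain ⟨f, b', hfb, hfb'⟩ := IsFractionRing.exists_reduced_fraction (A := ZI)
    (algebraMap ZI F h / algebraMap ZI F m)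
  set b : ZI := (b' : ZI) with hb
  have hb0 : b ≠ 0 := nonZeroDivisors.ne_zero b'.2
  have hw : algebraMap ZI F h / algebraMap ZI F m = algebraMap ZI F f / algebraMap ZI F b := by
    rw [← hfb', IsFractionRing.mk'_eq_div]
  have hcop : IsCoprime f b := hfb.isCoprime
  have hAm := A_ne (F := F) hm0
  have hAb := A_ne (F := F) hb0
  have hAh := A_ne (F := F) hh0
  have hf0 : f ≠ 0 := by
    rintro rfl
    rw [map_zero, zero_div] at hw
    exact (div_ne_zero hAh hAm) hw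
  have hAf := A_ne (F := F) hf0
  have hxd : x = algebraMap ZI F d * (algebraMap ZI F f / algebraMap ZI F b) ^ 2 := by
    rw [← hw, ← hxa]
    have h1 := congrArg (algebraMap ZI F) hdh
    rw [map_mul, map_mul, map_pow] at h1
    field_simp
    linear_combination h1
  -- the integral equation
  obtain ⟨Y, hY⟩ : ∃ Y : ZI, Y ^ 2 = d * (d ^ 2 * f ^ 4 + A * b ^ 4) := by
    have h1 : (y * (algebraMap ZI F b) ^ 3 / algebraMap ZI F f) ^ 2 =
        algebraMap ZI F (d * (d ^ 2 * f ^ 4 + A * b ^ 4)) := by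
      rw [div_pow, mul_pow, hxy, hxd]
      simp only [map_mul, map_add, map_pow]
      field_simp
    obtain ⟨Y, hY⟩ := sq_int h1
    refine ⟨Y, ?_⟩
    apply A_inj (F := F)
    rw [map_pow, hY, h1]
  have hprime : ∀ ρ : ZI, Prime ρ → ρ ∣ d → ρ ∣ DD pr V := by
    intro ρ hρ hρd
    by_contra hρD
    obtain ⟨d', hd'⟩ := hρd
    have hnd : ¬ ρ ∣ d' := by
      rintro ⟨e, he⟩
      exact hρ.not_isUnit (hd ρ ⟨e, by rw [hd', he]; ring⟩)
    have h1 : ρ ∣ Y := by
      apply hρ.dvd_of_dvd_pow (n := 2)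
      rw [hY, hd']
      exact (dvd_mul_right _ _).mul_right _
    obtain ⟨Y1, hY1⟩ := h1
    have h2 : ρ * Y1 ^ 2 = d' * (d ^ 2 * f ^ 4 + A * b ^ 4) := by
      apply mul_left_cancel₀ hρ.ne_zero
      have : ρ * (d' * (d ^ 2 * f ^ 4 + A * b ^ 4)) = Y ^ 2 := by rw [hY, hd']; ring
      rw [this, hY1]
      ring
    have h3 : ρ ∣ b := by
      have h4 : ρ ∣ d' * (d ^ 2 * f ^ 4 + A * b ^ 4) := by rw [← h2]; exact dvd_mul_right _ _
      have h5 := (hρ.dvd_or_dvd h4).resolve_left hnd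
      have h6 : ρ ∣ A * b ^ 4 := by
        have h7 : ρ ∣ d ^ 2 * f ^ 4 := by
          rw [hd']
          exact (dvd_pow (dvd_mul_right ρ d') (by norm_num)).mul_right _
        have h8 := dvd_sub h5 h7
        rwa [add_sub_cancel_left] at h8
      rcases hρ.dvd_or_dvd h6 with h7 | h7
      · exact absurd (hA.primes ρ hρ h7) hρD
      · exact hρ.dvd_of_dvd_pow h7
    obtain ⟨b1, hb1⟩ := h3
    have hnf : ¬ ρ ∣ f := by
      intro h4
      exact hρ.not_isUnit (hcop.isUnit_of_dvd' h4 ⟨b1, hb1⟩)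
    have h4 : Y1 ^ 2 = ρ * (d' * (d' ^ 2 * f ^ 4 + ρ ^ 2 * (A * b1 ^ 4))) := by
      apply mul_left_cancel₀ hρ.ne_zero
      rw [h2, hd', hb1]
      ring
    have h5 : ρ ∣ Y1 := hρ.dvd_of_dvd_pow (n := 2) (by rw [h4]; exact dvd_mul_right _ _)
    obtain ⟨Y2, hY2⟩ := h5
    have h6 : ρ ∣ d' * (d' ^ 2 * f ^ 4 + ρ ^ 2 * (A * b1 ^ 4)) := by
      refine ⟨Y2 ^ 2, ?_⟩
      apply mul_left_cancel₀ hρ.ne_zero
      rw [← h4, hY2]
      ring
    have h7 := (hρ.dvd_or_dvd h6).resolve_left hnd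
    have h8 : ρ ∣ d' ^ 2 * f ^ 4 := by
      have h9 : ρ ∣ ρ ^ 2 * (A * b1 ^ 4) := (dvd_pow_self ρ (by norm_num)).mul_right _
      have := dvd_sub h7 h9
      rwa [add_sub_cancel_right] at this
    rcases hρ.dvd_or_dvd h8 with h9 | h9
    · exact hnd (hρ.dvd_of_dvd_pow h9)
    · exact hnf (hρ.dvd_of_dvd_pow h9)
  -- the set of primes
  set S := V.filter (fun i => pr i ∣ d) with hS
  have hSV : S ⊆ V := Finset.filter_subset _ _
  have hSd : DD pr S ∣ d := by
    unfold DD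
    refine Finset.prod_dvd_of_coprime ?_ ?_
    · intro i _ j _ hij
      exact (hp.pp i).cop (hp.pp j) fun h => hij (hp.inj h)
    · intro i hi
      exact (Finset.mem_filter.1 hi).2
  obtain ⟨u, hu⟩ := hSd
  have huu : IsUnit u := by
    by_contra hnu
    have hu0 : u ≠ 0 := by
      rintro rfl
      exact hd0 (by rw [hu, mul_zero])
    obtain ⟨ρ, hρ, hρu⟩ := WfDvdMonoid.exists_irreducible_factor hnu hu0
    have hρ' : Prime ρ := irreducible_iff_prime.1 hρ
    have h1 : ρ ∣ d := by rw [hu]; exact hρu.mul_left _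
    have h2 := hprime ρ hρ' h1
    unfold DD at h2
    obtain ⟨i, hi, hρi⟩ := (hρ'.dvd_finsetProd_iff _).1 h2
    have h3 : pr i ∣ ρ := by
      obtain ⟨c, hc⟩ := hρi
      rcases (hp.pp i).pr.irreducible.isUnit_or_isUnit hc with h4 | h4
      · exact absurd h4 hρ'.not_isUnit
      · obtain ⟨c', hc'⟩ := h4.exists_right_inv
        exact ⟨c', by rw [hc, mul_assoc, hc', mul_one]⟩
    have h4 : i ∈ S := Finset.mem_filter.2 ⟨hi, h3.trans h1⟩
    have h5 : pr i * pr i ∣ d := by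
      rw [hu]
      refine mul_dvd_mul ?_ (h3.trans hρu)
      unfold DD
      exact Finset.dvd_prod_of_mem _ h4
    exact (hp.pp i).pr.not_isUnit (hd _ h5)
  have hun : u.norm = 1 := by
    obtain ⟨e, rfl⟩ := huu
    exact unit_norm e
  refine ⟨u, S, f, b, Y, hun, hSV, hcop, hf0, hb0, ?_, ?_⟩
  · rw [hxd, hu, mul_comm u]
  · rw [hY, hu, mul_comm u]

variable [Fintype ι]

/-- the local conditions -/
theorem local_condA (hp : PF pr) (V : Finset ι) {A : ZI} (hA : OT pr V A) {u : ZI} {S : Finset ι}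
    {f b Y : ZI} (hu : u.norm = 1) (hSV : S ⊆ V) (hcop : IsCoprime f b) (hf0 : f ≠ 0) (hb0 : b ≠ 0)
    (hE : Y ^ 2 = (u * DD pr S) * ((u * DD pr S) ^ 2 * f ^ 4 + A * b ^ 4)) {j : ι} (hj : j ∈ V) :
    (j ∉ S → qr (pr j) u * qr (pr j) (DD pr S) = 1) ∧
    (j ∈ S → qr (pr j) u * qr (pr j) (DD pr (V \ S)) = 1) := by
  have hπ := hp.pp j
  have hP := hπ.pr
  have hdvd : ∀ T : Finset ι, j ∉ T → ¬ pr j ∣ DD pr T := by
    intro T hT h
    unfold DD at h
    obtain ⟨i, hi, hji⟩ := (hP.dvd_finsetProd_iff _).1 h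
    exact not_dvd_of_ne hp (fun h' => hT (by rw [h']; exact hi)) hji
  have hnu : ¬ pr j ∣ u := not_dvd_unit hπ hu
  obtain ⟨a, A', hAA, hnA, hqA⟩ := hA.val j hj
  obtain ⟨k, f', hff, hnf⟩ := split_pow hP hf0
  obtain ⟨l, b', hbb, hnb⟩ := split_pow hP hb0
  have hkl : k = 0 ∨ l = 0 := by
    by_contra h
    push Not at h
    refine hP.not_isUnit (hcop.isUnit_of_dvd' (?_ : pr j ∣ f) (?_ : pr j ∣ b))
    · rw [hff]
      exact (dvd_pow_self _ h.1).mul_right _
    · rw [hbb]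
      exact (dvd_pow_self _ h.2).mul_right _
  constructor
  · intro hjS
    have hnP := hdvd S hjS
    have hnd : ¬ pr j ∣ u * DD pr S := fun h => (hP.dvd_or_dvd h).elim hnu hnP
    obtain ⟨d, hd⟩ : ∃ d, d = u * DD pr S := ⟨_, rfl⟩
    rw [← hd] at hE hnd
    have hlt : 4 * k < 2 * a + 1 + 4 * l := by
      by_contra hge
      push Not at hge
      have hk0 : k ≠ 0 := by omega
      have hl0 : l = 0 := hkl.resolve_left hk0
      subst hl0
      obtain ⟨e, he⟩ : ∃ e, 4 * k = (2 * a + 1) + (e + 1) := ⟨4 * k - (2 * a + 1) - 1, by omega⟩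
      refine odd_val (p := pr j) (Y := Y) (c := d * (pr j ^ (e + 1) * d ^ 2 * f' ^ 4 + A' * b' ^ 4)) hP ?_ a ?_
      · intro h
        rcases hP.dvd_or_dvd h with h1 | h1
        · exact hnd h1
        · have h2 : pr j ∣ pr j ^ (e + 1) * d ^ 2 * f' ^ 4 :=
            ((dvd_pow_self _ (Nat.succ_ne_zero e)).mul_right _).mul_right _
          have h3 := dvd_sub h1 h2
          rw [add_sub_cancel_left] at h3
          rcases hP.dvd_or_dvd h3 with h4 | h4
          · exact hnA h4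
          · exact hnb (hP.dvd_of_dvd_pow h4)
      · have e1 : f ^ 4 = pr j ^ (2 * a + 1) * pr j ^ (e + 1) * f' ^ 4 := by
          rw [hff, mul_pow, ← pow_mul, mul_comm k 4, he, pow_add]
        rw [hE, e1, hAA, hbb, pow_zero, one_mul]
        ring
    obtain ⟨e, he⟩ : ∃ e, 2 * a + 1 + 4 * l = 4 * k + (e + 1) :=
      ⟨2 * a + 1 + 4 * l - 4 * k - 1, by omega⟩
    obtain ⟨Z, hZ⟩ := even_val (p := pr j) (c := d * (d ^ 2 * f' ^ 4 + pr j ^ (e + 1) * A' * b' ^ 4)) hP (2 * k) Y (by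
      have e1 : f ^ 4 = pr j ^ (2 * (2 * k)) * f' ^ 4 := by
        rw [hff, mul_pow, ← pow_mul]
        congr 2
        ring
      have e2 : A * b ^ 4 = pr j ^ (2 * (2 * k)) * (pr j ^ (e + 1) * A' * b' ^ 4) := by
        have e3 : A * b ^ 4 = pr j ^ (2 * a + 1 + 4 * l) * (A' * b' ^ 4) := by
          rw [hAA, hbb, mul_pow, ← pow_mul, mul_comm l 4, pow_add]
          ring
        rw [e3, he, pow_add]
        have e4 : 4 * k = 2 * (2 * k) := by ring
        rw [e4]
        ring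
      rw [hE, e1, e2]
      ring)
    have h3 : pr j ∣ Z ^ 2 - d * (d * f' ^ 2) ^ 2 := by
      rw [hZ]
      refine ⟨d * (pr j ^ e * A' * b' ^ 4), ?_⟩
      rw [pow_succ]
      ring
    have h4 : ¬ pr j ∣ d * f' ^ 2 := by
      intro h
      rcases hP.dvd_or_dvd h with h5 | h5
      · exact hnd h5
      · exact hnf (hP.dvd_of_dvd_pow h5)
    have h5 := qr_per h3
    rw [qr_mul hπ, qr_sq' hπ h4, mul_one] at h5
    have h6 : ¬ pr j ∣ Z := by
      intro h
      have h7 : qr (pr j) (Z ^ 2) = 0 := qr_zero_iff.2 (dvd_pow h (by norm_num))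
      rw [h7] at h5
      exact hnd (qr_zero_iff.1 h5.symm)
    rw [← qr_mul hπ, ← hd, ← h5]
    exact qr_sq' hπ h6
  · intro hjS
    have hSe : DD pr S = pr j * DD pr (S.erase j) := by
      unfold DD
      exact (Finset.mul_prod_erase _ pr hjS).symm
    have hnS : ¬ pr j ∣ DD pr (S.erase j) := hdvd _ (Finset.notMem_erase _ _)
    obtain ⟨d, hd⟩ : ∃ d, d = u * DD pr (S.erase j) := ⟨_, rfl⟩
    have hnd : ¬ pr j ∣ d := by
      rw [hd]
      exact fun h => (hP.dvd_or_dvd h).elim hnu hnS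
    have hpd : u * DD pr S = pr j * d := by rw [hSe, hd]; ring
    rw [hpd] at hE
    have hlt : 2 * a + 1 + 4 * l < 4 * k + 2 := by
      by_contra hge
      push Not at hge
      obtain ⟨e, he⟩ : ∃ e, 2 * a + 1 + 4 * l = 4 * k + 2 + (e + 1) :=
        ⟨2 * a + 1 + 4 * l - (4 * k + 2) - 1, by omega⟩
      refine odd_val (p := pr j) (Y := Y) (c := d * (d ^ 2 * f' ^ 4 + pr j ^ (e + 1) * A' * b' ^ 4)) hP ?_
        (2 * k + 1) ?_
      · intro h
        rcases hP.dvd_or_dvd h with h1 | h1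
        · exact hnd h1
        · have h2 : pr j ∣ pr j ^ (e + 1) * A' * b' ^ 4 :=
            ((dvd_pow_self _ (Nat.succ_ne_zero e)).mul_right _).mul_right _
          have h3 := dvd_sub h1 h2
          rw [add_sub_cancel_right] at h3
          rcases hP.dvd_or_dvd h3 with h4 | h4
          · exact hnd (hP.dvd_of_dvd_pow h4)
          · exact hnf (hP.dvd_of_dvd_pow h4)
      · have e1 : f ^ 4 = pr j ^ (4 * k) * f' ^ 4 := by
          rw [hff, mul_pow, ← pow_mul, mul_comm k 4]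
        have e2 : A * b ^ 4 = pr j ^ (4 * k + 2) * (pr j ^ (e + 1) * A' * b' ^ 4) := by
          have e3 : A * b ^ 4 = pr j ^ (2 * a + 1 + 4 * l) * (A' * b' ^ 4) := by
            rw [hAA, hbb, mul_pow, ← pow_mul, mul_comm l 4, pow_add]
            ring
          rw [e3, he, pow_add]
          ring
        rw [hE, e1, e2]
        have e5 : pr j ^ (2 * (2 * k + 1) + 1) = pr j * pr j ^ 2 * pr j ^ (4 * k) := by
          have : 2 * (2 * k + 1) + 1 = 1 + 2 + 4 * k := by ring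
          rw [this, pow_add, pow_add, pow_one]
        have e6 : pr j ^ (4 * k + 2) = pr j ^ 2 * pr j ^ (4 * k) := by
          rw [add_comm, pow_add]
        rw [e5, e6]
        ring
    have hl0 : l = 0 := by
      rcases hkl with h | h
      · omega
      · exact h
    subst hl0
    obtain ⟨e, he⟩ : ∃ e, 4 * k + 2 = 2 * a + 1 + (e + 1) := ⟨4 * k + 2 - (2 * a + 1) - 1, by omega⟩
    obtain ⟨Z, hZ⟩ := even_val (p := pr j) (c := d * (pr j ^ (e + 1) * d ^ 2 * f' ^ 4 + A' * b' ^ 4)) hP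
      (a + 1) Y (by
      have e1 : pr j ^ 2 * f ^ 4 = pr j ^ (2 * a + 1) * pr j ^ (e + 1) * f' ^ 4 := by
        rw [hff, mul_pow, ← pow_mul, mul_comm k 4, ← pow_add, ← he, add_comm (4 * k) 2, pow_add]
        ring
      have e2 : pr j ^ (2 * (a + 1)) = pr j * pr j ^ (2 * a + 1) := by
        have : 2 * (a + 1) = 1 + (2 * a + 1) := by ring
        rw [this, pow_add, pow_one]
      rw [hE, e2, hAA, hbb, pow_zero, one_mul]
      linear_combination (pr j * d ^ 3) * e1)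
    have h3 : pr j ∣ Z ^ 2 - d * A' * (b' ^ 2) ^ 2 := by
      rw [hZ]
      refine ⟨d * (pr j ^ e * d ^ 2 * f' ^ 4), ?_⟩
      rw [pow_succ]
      ring
    have h4 : ¬ pr j ∣ b' ^ 2 := fun h => hnb (hP.dvd_of_dvd_pow h)
    have h5 := qr_per h3
    rw [qr_mul hπ, qr_mul hπ, qr_sq' hπ h4, mul_one] at h5
    have h6 : ¬ pr j ∣ Z := by
      intro h
      have h7 : qr (pr j) (Z ^ 2) = 0 := qr_zero_iff.2 (dvd_pow h (by norm_num))
      rw [h7] at h5
      rcases mul_eq_zero.1 h5.symm with h8 | h8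
      · exact hnd (qr_zero_iff.1 h8)
      · exact hnA (qr_zero_iff.1 h8)
    rw [qr_sq' hπ h6, hd, qr_mul hπ, hqA] at h5
    have hVe : DD pr (V.erase j) = DD pr (S.erase j) * DD pr (V \ S) := by
      unfold DD
      rw [← Finset.prod_union]
      · congr 1
        ext i
        simp only [Finset.mem_erase, Finset.mem_union, Finset.mem_sdiff]
        constructor
        · rintro ⟨h1, h2⟩
          by_cases h3 : i ∈ S
          · exact Or.inl ⟨h1, h3⟩
          · exact Or.inr ⟨h2, h3⟩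
        · rintro (⟨h1, h2⟩ | ⟨h1, h2⟩)
          · exact ⟨h1, hSV h2⟩
          · exact ⟨fun h => h2 (by rw [h]; exact hjS), h1⟩
      · rw [Finset.disjoint_left]
        intro i h1 h2
        exact (Finset.mem_sdiff.1 h2).2 (Finset.mem_of_mem_erase h1)
    rw [hVe, qr_mul hπ] at h5
    have h7 : qr (pr j) (DD pr (S.erase j)) * qr (pr j) (DD pr (S.erase j)) = 1 := by
      rw [← qr_mul hπ, ← sq]
      exact qr_sq' hπ hnS
    calc qr (pr j) u * qr (pr j) (DD pr (V \ S)) =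
          qr (pr j) u * (qr (pr j) (DD pr (S.erase j)) * qr (pr j) (DD pr (S.erase j))) *
            qr (pr j) (DD pr (V \ S)) := by rw [h7, mul_one]
      _ = qr (pr j) u * qr (pr j) (DD pr (S.erase j)) *
            (qr (pr j) (DD pr (S.erase j)) * qr (pr j) (DD pr (V \ S))) := by ring
      _ = 1 := h5.symm

end Pool.Agent.U695.XQ
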